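import Mathlib
import Pool.Agent.Lib.MP_018e2a_an.KF.Sets

/-!
# `T_{γ × γ}`: Khintchine's bound fails for every finite nonempty `γ`
-/

set_option autoImplicit false

namespace Pool.Agent.Results.MP_018e2a_an.KhintchineFails

/-- For `n ≥ 1`, `k ≥ 0` and `0 ≤ c ≤ 1` with `min c (1 - c) ≤ (15 / 64) ^ k / n` there are a
probability space, commuting measure preserving bijections `T i j` and a measurable set `A` of
measure `c` such that for every finite nonempty `γ` the return of `A` under `T_{γ × γ}` has measure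
`c² - (1 - 1 / (15 ^ k n)) min(c, 1 - c)²`, which is `c² / (15 ^ k n)` for
`c ≤ (15 / 64) ^ k / n`, `c ≤ 1 / 2`. -/
theorem result (n k : ℕ) (hn : 0 < n) (c : ℝ) (hc0 : 0 ≤ c) (hc1 : c ≤ 1)
    (hcn : min c (1 - c) ≤ (15 / 64) ^ k / n) :
    ∃ (X : Type) (_ : MeasurableSpace X) (μ : MeasureTheory.Measure X) (T : ℕ → ℕ → X → X)
      (A : Set X),
      MeasureTheory.IsProbabilityMeasure μ ∧
      (∀ i j, MeasureTheory.MeasurePreserving (T i j) μ μ) ∧
      (∀ i j, Function.Bijective (T i j)) ∧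
      (∀ i j k l, T i j ∘ T k l = T k l ∘ T i j) ∧
      MeasurableSet A ∧ μ.real A = c ∧
      ∀ γ : Finset ℕ, γ.Nonempty →
        μ.real (A ∩
          (List.foldr
            (fun (i : ℕ) (f : X → X) =>
              (List.foldr (fun (j : ℕ) (g : X → X) => T i j ∘ g) (id : X → X) γ.toList) ∘ f)
            (id : X → X) γ.toList) ⁻¹' A) =
          c ^ 2 - (1 - 1 / (15 ^ k * (n : ℝ))) * min c (1 - c) ^ 2 :=
  Pool.Agent.Lib.MP_018e2a_an.KF.mainT n k hn c hc0 hc1 hcn

end Pool.Agent.Results.MP_018e2a_an.KhintchineFails
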