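import Pool.Agent.Lib.MP_018e2a_an.OneSet.Unif

/-!
# The recurrence of `T_{γ × γ}` is a question about one set of integers

Let `r(γ) = ∑_{i, j ∈ γ} 2 ^ (k(i, j) ^ 2)`, where `k : ℕ × ℕ → ℕ` is the bijection `Nat.pair` of Mathlib. The question of the problem,
for all commuting measure preserving `T_ij`, is equivalent to the question whether every set of natural numbers of positive upper
density contains `a` and `a + r(γ)` for some finite nonempty `γ`. In particular it is enough to consider the powers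
`T_ij = S ^ n_ij` of one map.

Proof. From recurrence to sets of integers: Furstenberg's correspondence principle. Back: Let `y` be a point of the space. Write the
natural numbers `a` in the mixed radix with the weights `2 ^ (k ^ 2)`, let `T(a)` be the product of the `T_ij`, each to the power of
the digit of `a` at `k(i, j)`, and let `L` be the set of the `a` with `T(a) y ∈ A`, no digit of which is the largest possible. At
least one third of all `a` have such digits, so `L` has positive upper density for some `y` outside any given null set. For `a` in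
`L` there are no carries in `a + r(γ)`, hence `T(a + r(γ)) = T_{γ × γ} T(a)`.
-/

open MeasureTheory Filter

namespace Pool.Agent.Results.MP_018e2a_an.OneSetOfIntegers

open MP_018e2a_an.OneSet

/-- **Main theorem.** The following are equivalent: the statement of the problem; its uniform form, where the size of `γ` and the
measure of the return set are controlled by the measure of `A` alone; the statement of the problem for all `T i j = S ^ n i j`; the
finite combinatorial statement about the integers `∑ 2 ^ (k(i, j) ^ 2)`; the same for sets of positive upper density. -/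
theorem result :
    [(∀ (X : Type) [MeasurableSpace X] (μ : Measure X) [IsProbabilityMeasure μ] (T : ℕ → ℕ → X → X),
        (∀ i j, MeasurePreserving (T i j) μ μ) →
        (∀ i j k l, T i j ∘ T k l = T k l ∘ T i j) →
        ∀ A : Set X, MeasurableSet A → 0 < μ A →
          ∃ γ : Finset ℕ, γ.Nonempty ∧
            0 < μ (A ∩
              (List.foldr
                (fun (i : ℕ) (f : X → X) =>
                  (List.foldr (fun (j : ℕ) (g : X → X) => T i j ∘ g) (id : X → X) γ.toList) ∘ f)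
                (id : X → X) γ.toList) ⁻¹' A)),
      (∀ δ : ℝ, 0 < δ → ∃ m : ℕ, ∃ c : ℝ, 0 < c ∧
        ∀ (X : Type) [MeasurableSpace X] (μ : Measure X) [IsProbabilityMeasure μ] (T : ℕ → ℕ → X → X),
        (∀ i j, MeasurePreserving (T i j) μ μ) →
        (∀ i j k l, T i j ∘ T k l = T k l ∘ T i j) →
        ∀ A : Set X, MeasurableSet A → δ ≤ μ.real A →
          ∃ γ : Finset ℕ, γ.Nonempty ∧ γ ⊆ Finset.range m ∧
            c ≤ μ.real (A ∩
              (List.foldr
                (fun (i : ℕ) (f : X → X) =>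
                  (List.foldr (fun (j : ℕ) (g : X → X) => T i j ∘ g) (id : X → X) γ.toList) ∘ f)
                (id : X → X) γ.toList) ⁻¹' A)),
      (∀ (n : ℕ → ℕ → ℕ) (X : Type) [MeasurableSpace X] (μ : Measure X) [IsProbabilityMeasure μ]
        (S : X → X), MeasurePreserving S μ μ → ∀ A : Set X, MeasurableSet A → 0 < μ A →
          ∃ γ : Finset ℕ, γ.Nonempty ∧ 0 < μ (A ∩ (S^[∑ p ∈ γ ×ˢ γ, n p.1 p.2]) ⁻¹' A)),
      (∀ ε : ℝ, 0 < ε → ∃ N₀ : ℕ, ∀ N ≥ N₀, ∀ L : Finset ℕ, L ⊆ Finset.range N → ε * N ≤ L.card →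
        ∃ γ : Finset ℕ, γ.Nonempty ∧ ∃ a ∈ L, a + ∑ p ∈ γ ×ˢ γ, 2 ^ (Nat.pair p.1 p.2) ^ 2 ∈ L),
      (∀ L : Set ℕ, (∃ ε : ℝ, 0 < ε ∧ ∃ᶠ n : ℕ in atTop, ε * n ≤ (L ∩ Set.Iio n).ncard) →
        ∃ γ : Finset ℕ, γ.Nonempty ∧ ∃ a ∈ L, a + ∑ p ∈ γ ×ˢ γ, 2 ^ (Nat.pair p.1 p.2) ^ 2 ∈ L)].TFAE := by
  tfae_have 1 → 3 := by
    intro h n X _ μ _ S hS A hA hpos
    obtain ⟨γ, hγ, h1⟩ := h X μ (fun i j => S^[n i j]) (fun i j => hS.iterate _)
      (fun i j k l => by rw [← Function.iterate_add, ← Function.iterate_add, add_comm]) A hA hpos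
    refine ⟨γ, hγ, ?_⟩
    rw [← sq_iterate S n γ]
    exact h1
  tfae_have 3 → 4 := by
    intro h ε hε
    obtain ⟨N₀, hN⟩ := furstenberg
      (R := {r | ∃ γ : Finset ℕ, γ.Nonempty ∧ r = ∑ p ∈ γ ×ˢ γ, 2 ^ (Nat.pair p.1 p.2) ^ 2})
      (fun X _ μ _ S hS A hA hpos => by
        obtain ⟨γ, hγ, h1⟩ := h (fun i j => 2 ^ (Nat.pair i j) ^ 2) X μ S hS A hA hpos
        exact ⟨_, ⟨γ, hγ, rfl⟩, h1⟩) hε
    refine ⟨N₀, fun N hN1 L hL1 hL2 => ?_⟩
    obtain ⟨r, ⟨γ, hγ, rfl⟩, a, ha1, ha2⟩ := hN N hN1 L hL1 hL2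
    exact ⟨γ, hγ, a, ha1, ha2⟩
  tfae_have 4 → 5 := by
    classical
    rintro h L ⟨ε, hε, hfr⟩
    obtain ⟨N₀, hN⟩ := h ε hε
    obtain ⟨n, h1, h2⟩ := (hfr.and_eventually (eventually_ge_atTop N₀)).exists
    have hfin : (L ∩ Set.Iio n).Finite := (Set.finite_Iio _).subset Set.inter_subset_right
    obtain ⟨γ, hγ, a, ha1, ha2⟩ := hN n h2 hfin.toFinset (fun i hi => by
      rw [Set.Finite.mem_toFinset] at hi
      exact Finset.mem_range.2 hi.2) (by
      rwa [Set.ncard_eq_toFinset_card _ hfin] at h1)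
    rw [Set.Finite.mem_toFinset] at ha1 ha2
    exact ⟨γ, hγ, a, ha1.1, ha2.1⟩
  tfae_have 5 → 1 := by
    intro h X _ μ _ T hT hc A hA hpos
    exact three_one hT h hc hA hpos
  tfae_have 4 → 2 := by
    intro h δ hδ
    exact uniform h hδ
  tfae_have 2 → 1 := by
    intro h X _ μ _ T hT hc A hA hpos
    obtain ⟨m, c, hc0, h1⟩ := h (μ.real A) (ENNReal.toReal_pos hpos.ne' (measure_ne_top _ _))
    obtain ⟨γ, hγ, -, h2⟩ := h1 X μ T hT hc A hA le_rfl
    exact ⟨γ, hγ, (ENNReal.toReal_pos_iff.1 (lt_of_lt_of_le hc0 h2)).1⟩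
  tfae_finish

end Pool.Agent.Results.MP_018e2a_an.OneSetOfIntegers
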