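import Mathlib
import Pool.Agent.Lib.MP_018e2a_an.TH.Meas

/-!
# `T_{γ × γ}`: large returns for sets of measure more than `1/3`
-/

set_option autoImplicit false

namespace Pool.Agent.Results.MP_018e2a_an.OneThird

/-- Let `T i j` be commuting measure preserving maps of a probability space, `A` measurable and
`β` a sequence of pairwise disjoint finite sets. For every `ε > 0` there is a union `D` of finitely
many (at least one) of the `β i` with `μ(A ∩ T_{D × D}⁻¹ A) ≥ (3 μ(A)² - μ(A)) / 2 - ε`. -/
theorem result (X : Type*) [MeasurableSpace X] (μ : MeasureTheory.Measure X)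
    [MeasureTheory.IsProbabilityMeasure μ] (T : ℕ → ℕ → X → X)
    (hT : ∀ i j, MeasureTheory.MeasurePreserving (T i j) μ μ)
    (hc : ∀ i j k l, T i j ∘ T k l = T k l ∘ T i j)
    (A : Set X) (hA : MeasurableSet A)
    (β : ℕ → Finset ℕ) (hβ : ∀ i j, i ≠ j → Disjoint (β i) (β j)) (ε : ℝ) (hε : 0 < ε) :
    ∃ F : Finset ℕ, F.Nonempty ∧
      (3 * μ.real A ^ 2 - μ.real A) / 2 - ε ≤ μ.real (A ∩
        (List.foldr
          (fun (i : ℕ) (f : X → X) =>
            (List.foldr (fun (j : ℕ) (g : X → X) => T i j ∘ g) (id : X → X)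
              (F.biUnion β).toList) ∘ f)
          (id : X → X) (F.biUnion β).toList) ⁻¹' A) :=
  Pool.Agent.Lib.MP_018e2a_an.TH.ret μ T hT hc A hA β hβ ε hε

/-- The case `β i = {i}`: recurrence, in the words of the frozen statement, if `μ(A) > 1/3`. -/
theorem recurrent (X : Type*) [MeasurableSpace X] (μ : MeasureTheory.Measure X)
    [MeasureTheory.IsProbabilityMeasure μ] (T : ℕ → ℕ → X → X)
    (hT : ∀ i j, MeasureTheory.MeasurePreserving (T i j) μ μ)
    (hc : ∀ i j k l, T i j ∘ T k l = T k l ∘ T i j)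
    (A : Set X) (hA : MeasurableSet A) (h : 1 / 3 < μ A) :
    ∃ γ : Finset ℕ, γ.Nonempty ∧
      0 < μ (A ∩
        (List.foldr
          (fun (i : ℕ) (f : X → X) =>
            (List.foldr (fun (j : ℕ) (g : X → X) => T i j ∘ g) (id : X → X) γ.toList) ∘ f)
          (id : X → X) γ.toList) ⁻¹' A) := by
  have h1 : (1 : ℝ) / 3 < μ.real A := by
    have h2 : ((1 : ENNReal) / 3).toReal < (μ A).toReal :=
      ENNReal.toReal_strict_mono (MeasureTheory.measure_ne_top μ A) h
    simpa [MeasureTheory.Measure.real] using h2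
  obtain ⟨F, hF, h3⟩ := result X μ T hT hc A hA (fun i => {i})
    (fun i j hij => by simpa using hij) ((3 * μ.real A ^ 2 - μ.real A) / 4) (by nlinarith)
  rw [Finset.biUnion_singleton_eq_self] at h3
  refine ⟨F, hF, ?_⟩
  by_contra h4
  have h5 := le_antisymm (not_lt.mp h4) bot_le
  have h6 : μ.real (A ∩
        (List.foldr
          (fun (i : ℕ) (f : X → X) =>
            (List.foldr (fun (j : ℕ) (g : X → X) => T i j ∘ g) (id : X → X) F.toList) ∘ f)
          (id : X → X) F.toList) ⁻¹' A) = 0 := by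
    rw [MeasureTheory.measureReal_def, h5]
    rfl
  rw [h6] at h3
  nlinarith

end Pool.Agent.Results.MP_018e2a_an.OneThird
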