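import Mathlib
import Pool.Agent.Lib.MP_018e2a_an.SPL.MixFive

/-!
# `T_{γ × γ}` for families with `T_ij T_ji = E_ij F_{j,κ(i,j)} σ(m_ij)`, `σ` mixing
-/

set_option autoImplicit false

namespace Pool.Agent.Results.MP_018e2a_an.SplitFamilies

/-- Let `C` be a set of pairwise commuting measure preserving maps of a probability space
(invertibility is not assumed), `T i j ∈ C`, `I` an infinite set of indices and `A` measurable.
Let `σ : Λ → C` be a mixing action of an abelian group (no condition if `Λ` is finite). Suppose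
that for `i < j` in `I` the map `T i j ∘ T j i` is `E i j ∘ F j k ∘ σ (m i j)` with
`E i j, F j k ∈ C` and arbitrary `m i j ∈ Λ`, where the colour `k = κ i j` takes only finitely
many values and, for every `i ∈ I`, the sets `(E i j)⁻¹ A` (`j ∈ I`, `j > i`) are totally bounded
for the distance `μ (B ∆ B')` (for instance `E i j` takes finitely many values for each `i`). The
`T i i` are arbitrary. Then for every `ε > 0` some finite nonempty `γ ⊆ I` has
`μ(A ∩ T_{γ × γ}⁻¹ A) ≥ μ(A)² - ε`. -/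
theorem result (X : Type*) [MeasurableSpace X] (μ : MeasureTheory.Measure X)
    [MeasureTheory.IsProbabilityMeasure μ]
    (C : Set (X → X)) (hC : ∀ f ∈ C, MeasureTheory.MeasurePreserving f μ μ)
    (hc : ∀ f ∈ C, ∀ g ∈ C, f ∘ g = g ∘ f)
    (Λ : Type*) [CommGroup Λ] (σ : Λ → X → X) (hσC : ∀ g, σ g ∈ C)
    (hσm : ∀ g h, σ (g * h) = σ g ∘ σ h)
    (hmix : ∀ A' B : Set X, MeasurableSet A' → MeasurableSet B → ∀ δ : ℝ, 0 < δ →
      {g : Λ | δ < |μ.real (A' ∩ σ g ⁻¹' B) - μ.real A' * μ.real B|}.Finite)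
    (T : ℕ → ℕ → X → X) (hT : ∀ i j, T i j ∈ C)
    (I : Set ℕ) (hI : I.Infinite) (r : ℕ) (κ : ℕ → ℕ → Fin r)
    (E : ℕ → ℕ → X → X) (F : ℕ → Fin r → X → X) (m : ℕ → ℕ → Λ)
    (hE : ∀ i j, E i j ∈ C) (hF : ∀ j k, F j k ∈ C)
    (h : ∀ i ∈ I, ∀ j ∈ I, i < j → T i j ∘ T j i = E i j ∘ F j (κ i j) ∘ σ (m i j))
    (A : Set X) (hA : MeasurableSet A)
    (htb : ∀ i ∈ I, ∀ δ : ℝ, 0 < δ → ∃ B : Finset (Set X), ∀ j ∈ I, i < j →
      ∃ b ∈ B, μ.real (symmDiff (E i j ⁻¹' A) b) ≤ δ)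
    (ε : ℝ) (hε : 0 < ε) :
    ∃ γ : Finset ℕ, γ.Nonempty ∧ (∀ i ∈ γ, i ∈ I) ∧
      μ.real A ^ 2 - ε ≤ μ.real (A ∩
        (List.foldr
          (fun (i : ℕ) (f : X → X) =>
            (List.foldr (fun (j : ℕ) (g : X → X) => T i j ∘ g) (id : X → X) γ.toList) ∘ f)
          (id : X → X) γ.toList) ⁻¹' A) := by
  obtain ⟨γ, h1, h2, h3⟩ := Pool.Agent.Lib.MP_018e2a_an.SPL.ret5 μ C hC hc σ hσC hσm hmix T hT
    I hI κ E F m hE hF h A hA htb ε hε
  exact ⟨γ, h1, fun i hi => h2 (Finset.mem_coe.mpr hi), h3⟩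

end Pool.Agent.Results.MP_018e2a_an.SplitFamilies
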